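import Pool.Agent.H10.ABY.Stmts
import Pool.Agent.H51.SHA.TR0

/-!
# ABY, module TRY: triples of small height, one of the radicals at most `Y`
-/

set_option autoImplicit false

namespace Pool.ABY

open Finset Pool.Agent.H98.ABCR Pool.SHA

/-- if one of three numbers is at most `Y` and their product is at most `X`, then one of the products
of two of them is at most `√(X Y)` -/
lemma try_min {a b c X Y : ℝ} (ha : 0 < a) (hb : 0 < b) (hc : 0 < c) (hX : a * b * c ≤ X)
    (hY : a ≤ Y ∨ b ≤ Y ∨ c ≤ Y) :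
    a * b ≤ Real.sqrt (X * Y) ∨ a * c ≤ Real.sqrt (X * Y) ∨ b * c ≤ Real.sqrt (X * Y) := by
  have key : ∀ x y z : ℝ, 0 < x → 0 < y → 0 < z → x * y * z ≤ X → x ≤ Y →
      x * y ≤ Real.sqrt (X * Y) ∨ x * z ≤ Real.sqrt (X * Y) := by
    intro x y z hx hy hz h1 h2
    have hX0 : 0 ≤ X := le_trans (by positivity) h1
    rcases le_total y z with h | h
    · left
      apply Real.le_sqrt_of_sq_le
      calc (x * y) ^ 2 = (x * y * y) * x := by ring
        _ ≤ (x * y * z) * x := by gcongr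
        _ ≤ X * Y := by gcongr
    · right
      apply Real.le_sqrt_of_sq_le
      calc (x * z) ^ 2 = (x * z * z) * x := by ring
        _ ≤ (x * y * z) * x := by
          have : x * z * z ≤ x * y * z := by
            have := mul_le_mul_of_nonneg_left h (mul_pos hx hz).le
            nlinarith
          gcongr
        _ ≤ X * Y := by gcongr
  rcases hY with h | h | h
  · rcases key a b c ha hb hc hX h with h' | h'
    · exact Or.inl h'
    · exact Or.inr (Or.inl h')
  · rcases key b a c hb ha hc (by linarith [mul_comm a b, hX, show b * a * c = a * b * c by ring]) h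
      with h' | h'
    · left
      rw [mul_comm]
      exact h'
    · exact Or.inr (Or.inr h')
  · rcases key c a b hc ha hb (by rw [show c * a * b = a * b * c by ring]; exact hX) h with h' | h'
    · right
      left
      rw [mul_comm]
      exact h'
    · right
      right
      rw [mul_comm]
      exact h'

theorem try_thm (hSRD : S_SRD) : S_TRY := by
  classical
  obtain ⟨C, hC, hS⟩ := hSRD
  refine ⟨2 * C, by linarith, ?_⟩
  intro X Y₀ h F hX hY1 hh1 hF
  set N := ⌊Real.exp h⌋₊ with hN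
  set S := Real.exp (C * Real.sqrt h) with hSd
  set Y := Real.sqrt (X * Y₀) with hYd
  have hY0 : 0 ≤ Y := Real.sqrt_nonneg _
  have hsum := hS h hh1
  -- membership
  have hmem : ∀ v ∈ F, v.1 ∈ Icc 1 N ∧ v.2 ∈ Icc 1 N ∧ v.1 + v.2 ∈ Icc 1 N := by
    intro v hv
    obtain ⟨⟨p1, p2, _⟩, _, _, h3⟩ := hF v hv
    have hle : v.1 + v.2 ≤ N := by
      rw [hN]
      apply Nat.le_floor
      have hpos : (0 : ℝ) < ((v.1 + v.2 : ℕ) : ℝ) := by exact_mod_cast (by omega : 0 < v.1 + v.2)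
      have : Real.log ((v.1 + v.2 : ℕ) : ℝ) ≤ h := h3
      exact (Real.log_le_iff_le_exp hpos).1 this
    simp only [Finset.mem_Icc]
    omega
  -- radicals
  have hrad : ∀ v ∈ F, (rad v.1 : ℝ) * rad v.2 * rad (v.1 + v.2) ≤ X := by
    intro v hv
    obtain ⟨⟨_, _, hc⟩, h2, _⟩ := hF v hv
    have c1 : (v.1 * v.2).Coprime (v.1 + v.2) := by
      apply Nat.Coprime.mul_left
      · simpa using hc
      · simpa [Nat.coprime_comm] using hc
    have e : RR v = rad v.1 * rad v.2 * rad (v.1 + v.2) := by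
      unfold RR nn
      rw [tr0_rad_mul c1, tr0_rad_mul hc]
    rw [e] at h2
    push_cast at h2
    exact h2
  have hsm : ∀ v ∈ F, (rad v.1 : ℝ) ≤ Y₀ ∨ (rad v.2 : ℝ) ≤ Y₀ ∨ (rad (v.1 + v.2) : ℝ) ≤ Y₀ := by
    intro v hv
    obtain ⟨_, _, ⟨k, hk⟩, _⟩ := hF v hv
    fin_cases k
    · exact Or.inl hk
    · exact Or.inr (Or.inl hk)
    · exact Or.inr (Or.inr hk)
  have hcov : F ⊆ (F.filter fun v => (rad v.1 : ℝ) * rad v.2 ≤ Y) ∪
      ((F.filter fun v => (rad v.1 : ℝ) * rad (v.1 + v.2) ≤ Y) ∪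
        (F.filter fun v => (rad v.2 : ℝ) * rad (v.1 + v.2) ≤ Y)) := by
    intro v hv
    have a1 : (0 : ℝ) < rad v.1 := by exact_mod_cast tr0_rad_pos v.1
    have a2 : (0 : ℝ) < rad v.2 := by exact_mod_cast tr0_rad_pos v.2
    have a3 : (0 : ℝ) < rad (v.1 + v.2) := by exact_mod_cast tr0_rad_pos (v.1 + v.2)
    have := try_min a1 a2 a3 (hrad v hv) (hsm v hv)
    simp only [Finset.mem_union, Finset.mem_filter]
    tauto
  have key : ∀ (g : ℕ × ℕ → ℕ × ℕ), Function.Injective g → ∀ G : Finset (ℕ × ℕ),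
      (∀ v ∈ G, (g v).1 ∈ Icc 1 N ∧ (g v).2 ∈ Icc 1 N ∧
        ((rad (g v).1 : ℝ) * rad (g v).2) ≤ Y) → (G.card : ℝ) ≤ Y * S ^ 2 := by
    intro g hg G hG
    rw [← Finset.card_image_of_injective G hg]
    apply tr0_pairs N Y S hY0 hsum
    intro x hx
    obtain ⟨v, hv, rfl⟩ := Finset.mem_image.1 hx
    exact hG v hv
  have b1 : (((F.filter fun v => (rad v.1 : ℝ) * rad v.2 ≤ Y)).card : ℝ) ≤ Y * S ^ 2 := by
    apply key (fun v => v) (fun _ _ e => e)
    intro v hv
    rw [Finset.mem_filter] at hv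
    exact ⟨(hmem v hv.1).1, (hmem v hv.1).2.1, hv.2⟩
  have b2 : (((F.filter fun v => (rad v.1 : ℝ) * rad (v.1 + v.2) ≤ Y)).card : ℝ) ≤ Y * S ^ 2 := by
    apply key (fun v => (v.1, v.1 + v.2))
    · intro v w e
      simp only [Prod.mk.injEq] at e
      ext <;> omega
    · intro v hv
      rw [Finset.mem_filter] at hv
      exact ⟨(hmem v hv.1).1, (hmem v hv.1).2.2, hv.2⟩
  have b3 : (((F.filter fun v => (rad v.2 : ℝ) * rad (v.1 + v.2) ≤ Y)).card : ℝ) ≤ Y * S ^ 2 := by
    apply key (fun v => (v.2, v.1 + v.2))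
    · intro v w e
      simp only [Prod.mk.injEq] at e
      ext <;> omega
    · intro v hv
      rw [Finset.mem_filter] at hv
      exact ⟨(hmem v hv.1).2.1, (hmem v hv.1).2.2, hv.2⟩
  have hcard := (Finset.card_le_card hcov).trans
    ((Finset.card_union_le _ _).trans (Nat.add_le_add_left (Finset.card_union_le _ _) _))
  have hcard' : (F.card : ℝ) ≤ Y * S ^ 2 + (Y * S ^ 2 + Y * S ^ 2) := by
    have hc2 : (F.card : ℝ) ≤ (((F.filter fun v => (rad v.1 : ℝ) * rad v.2 ≤ Y).card +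
        ((F.filter fun v => (rad v.1 : ℝ) * rad (v.1 + v.2) ≤ Y).card +
          (F.filter fun v => (rad v.2 : ℝ) * rad (v.1 + v.2) ≤ Y).card) : ℕ) : ℝ) :=
      Nat.cast_le.2 hcard
    rw [Nat.cast_add, Nat.cast_add] at hc2
    linarith
  have hS2 : S ^ 2 = Real.exp (2 * C * Real.sqrt h) := by
    rw [hSd, ← Real.exp_nat_mul]
    congr 1
    push_cast
    ring
  rw [hS2] at hcard'
  have hE : 0 ≤ Y * Real.exp (2 * C * Real.sqrt h) := by positivity
  calc (F.card : ℝ) ≤ _ := hcard'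
    _ ≤ 6 * Y * Real.exp (2 * C * Real.sqrt h) := by linarith

end Pool.ABY
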